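import Pool.Agent.MLD.Fin1

namespace Pool.Agent.MLD.Old.BlocksOfTwo

open MLD MvPolynomial

/-- Uniform ideal-adic semicontinuity of minimal log discrepancies at the origin `0` of affine
`n`-space over an algebraically closed field `k` of characteristic zero, for the `ℝ`-ideals with
exponents in a finite set `I` all of whose factors are generated by products of polynomials each of
which involves only the variables of one block of a partition `blk` of the `n` variables in blocks
with at most two elements. -/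
theorem result.{u} (k : Type u) [Field k] [IsAlgClosed k] [CharZero k] (n m : ℕ) (hn : 0 < n)
    (blk : Fin n → Fin m) (hblk : ∀ b, Fintype.card {i // blk i = b} ≤ 2)
    (I : Set ℝ) (hI : I.Finite) (hI0 : ∀ t ∈ I, 0 ≤ t) :
    ∃ s : ℕ, 1 ≤ s ∧ ∀ (r : ℕ) (lam : Fin r → ℝ) (a b : Fin r → Ideal (MvPolynomial (Fin n) k)),
      (∀ j, lam j ∈ I) → (∀ j, a j ≠ ⊥) → (∀ j, b j ≠ ⊥) →
      (∀ j, IsBlockIdeal blk (a j)) → (∀ j, IsBlockIdeal blk (b j)) →
      (∀ j, a j ⊔ mm k (Fin n) ^ s = b j ⊔ mm k (Fin n) ^ s) →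
      (0 ≤ mld lam a ↔ 0 ≤ mld lam b) ∧
        (0 ≤ mld lam a → 0 ≤ mld lam b → mld lam a = mld lam b) := by
  have : Nonempty (Fin n) := ⟨⟨0, hn⟩⟩
  obtain ⟨s, hs, h⟩ := q1_general (ClassOf blk (fun _ => (Set.univ : Set (MvPolynomial _ k))))
    (classOf_top blk _ fun _ => Set.mem_univ _)
    (classOf_mul blk _ fun _ _ _ _ _ => Set.mem_univ _)
    (fun r lam hlam => core blk _ (fun b => blockOK_le_two blk b (hblk b)) lam hlam) I hI hI0
  refine ⟨s, hs, fun r lam a b h1 h2 h3 h4 h5 h6 => h r lam a b h1 h2 h3 ?_ ?_ h6⟩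
  · exact fun j => classOf_of_isBlockIdeal blk _ (h4 j)
  · exact fun j => classOf_of_isBlockIdeal blk _ (h5 j)

end Pool.Agent.MLD.Old.BlocksOfTwo
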