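import Pool.Agent.MLD.Fin3
import Pool.Agent.MLD.Corank

namespace OldCorankTwo

open MLD MvPolynomial

/-- Uniform ideal-adic semicontinuity of minimal log discrepancies at the origin of affine
`n`-space over an algebraically closed field `k` of characteristic zero, for the `ℝ`-ideals
`(f)^(lam 0) * m^(lam 1 + ... + lam r)` with exponents in a finite set `I`, `lam 0 ≤ 1`, where `m` is the
maximal ideal of the origin and `f` is any polynomial of corank at most two at the origin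
(for `n = 3`: of order at most two), compared with arbitrary `ℝ`-ideals `∏ b_j^(lam j)`. -/
theorem result.{u} (k : Type u) [Field k] [IsAlgClosed k] [CharZero k] (n : ℕ) (hn : 0 < n)
    (I : Set ℝ) (hI : I.Finite) (hI0 : ∀ t ∈ I, 0 ≤ t) :
    ∃ s : ℕ, 1 ≤ s ∧ ∀ (r : ℕ) (lam : Fin (r + 1) → ℝ) (f : MvPolynomial (Fin n) k)
      (b : Fin (r + 1) → Ideal (MvPolynomial (Fin n) k)),
      (∀ j, lam j ∈ I) → lam 0 ≤ 1 → f ≠ 0 → CorankLeTwo f → (∀ j, b j ≠ ⊥) →
      Ideal.span {f} ⊔ mm k (Fin n) ^ s = b 0 ⊔ mm k (Fin n) ^ s →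
      (∀ j : Fin r, mm k (Fin n) ⊔ mm k (Fin n) ^ s = b j.succ ⊔ mm k (Fin n) ^ s) →
      (0 ≤ mld lam (Fin.cons (Ideal.span {f}) (fun _ : Fin r => mm k (Fin n))) ↔
        0 ≤ mld lam b) ∧
      (0 ≤ mld lam (Fin.cons (Ideal.span {f}) (fun _ : Fin r => mm k (Fin n))) →
        0 ≤ mld lam b →
        mld lam (Fin.cons (Ideal.span {f}) (fun _ : Fin r => mm k (Fin n))) = mld lam b) :=
  q1_corank n hn (bdd_isSplit n hn) I hI hI0

end OldCorankTwo
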