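import Pool.Agent.MLD.Fin2

namespace Pool.Agent.Results.MP_405ba3_ag.LinearFactors

open MLD MvPolynomial

/-- Uniform ideal-adic semicontinuity of minimal log discrepancies at the origin `0` of affine
`n`-space over an algebraically closed field `k` of characteristic zero, for the `ℝ`-ideals with
exponents in a finite set `I` all of whose factors are generated by products of polynomials of
degree at most one. -/
theorem result.{u} (k : Type u) [Field k] [IsAlgClosed k] [CharZero k] (n : ℕ) (hn : 0 < n)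
    (I : Set ℝ) (hI : I.Finite) (hI0 : ∀ t ∈ I, 0 ≤ t) :
    ∃ s : ℕ, 1 ≤ s ∧ ∀ (r : ℕ) (lam : Fin r → ℝ) (a b : Fin r → Ideal (MvPolynomial (Fin n) k)),
      (∀ j, lam j ∈ I) → (∀ j, a j ≠ ⊥) → (∀ j, b j ≠ ⊥) →
      (∀ j, IsLinearProductIdeal (a j)) → (∀ j, IsLinearProductIdeal (b j)) →
      (∀ j, a j ⊔ mm k (Fin n) ^ s = b j ⊔ mm k (Fin n) ^ s) →
      (0 ≤ mld lam a ↔ 0 ≤ mld lam b) ∧
        (0 ≤ mld lam a → 0 ≤ mld lam b → mld lam a = mld lam b) := by
  have : Nonempty (Fin n) := ⟨⟨0, hn⟩⟩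
  obtain ⟨s, hs, h⟩ := q1_general (ClassOf (fun _ : Fin n => ())
      (fun b => unitMul (linProd k {_i : Fin n // () = b})))
    (classOf_top _ _ fun b => unitMul_linProd _ ⟨0, by simp, by simp⟩)
    (classOf_mul _ _ fun b f hf g hg => by
      obtain ⟨U, f', hU, ⟨s, rfl⟩, rfl⟩ := hf
      obtain ⟨V, g', hV, ⟨t, rfl⟩, rfl⟩ := hg
      refine ⟨U * V, _, ?_, ⟨s + t, rfl⟩, ?_⟩
      · have h1 : ∀ G : MvPolynomial {_i : Fin n // () = b} k, coeff 0 G = constantCoeff G :=
          fun _ => rfl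
        rw [h1] at hU hV ⊢
        rw [map_mul]
        exact mul_ne_zero hU hV
      · rw [Multiset.map_add, Multiset.prod_add]
        ring)
    (fun r lam hlam => core _ _ (fun b => blockOK_unitMul _ (blockOK_linProd k _)) lam hlam)
    I hI hI0
  refine ⟨s, hs, fun r lam a b h1 h2 h3 h4 h5 h6 => h r lam a b h1 h2 h3 ?_ ?_ h6⟩
  · exact fun j => classOf_of_linear _ (h4 j)
  · exact fun j => classOf_of_linear _ (h5 j)

end Pool.Agent.Results.MP_405ba3_ag.LinearFactors
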