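import Pool.Agent.M4.XMain

namespace OldSmoothThreefold

open MLD MvPolynomial

/-- Q1 for affine 3-space and the origin: uniform ideal-adic semicontinuity of minimal log
discrepancies. Let `k` be an algebraically closed field of characteristic zero and `I` a finite set of
nonnegative real numbers. There is `s ≥ 1` such that for all `ℝ`-ideals `a = ∏ a_j^(lam j)`,
`b = ∏ b_j^(lam j)` on `𝔸^3` (any number of nonzero ideals, exponents in `I`) with
`a_j + m^s = b_j + m^s` for all `j`, where `m = mm k (Fin 3)` is the ideal of the origin: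
`mld a ≥ 0` if and only if `mld b ≥ 0`, and in this case `mld a = mld b`. -/
theorem result.{u} (k : Type u) [Field k] [IsAlgClosed k] [CharZero k]
    (I : Set ℝ) (hI : I.Finite) (hI0 : ∀ t ∈ I, 0 ≤ t) :
    ∃ s : ℕ, 1 ≤ s ∧ ∀ (r : ℕ) (lam : Fin r → ℝ)
      (a b : Fin r → Ideal (MvPolynomial (Fin 3) k)), (∀ j, lam j ∈ I) → (∀ j, a j ≠ ⊥) →
      (∀ j, b j ≠ ⊥) → (∀ j, a j ⊔ mm k (Fin 3) ^ s = b j ⊔ mm k (Fin 3) ^ s) →
      (0 ≤ mld lam a ↔ 0 ≤ mld lam b) ∧
        (0 ≤ mld lam a → 0 ≤ mld lam b → mld lam a = mld lam b) := by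
  obtain ⟨s, hs, h⟩ := M4.q1_main (k := k) I hI hI0
  exact ⟨s, hs, fun r lam a b h1 h2 h3 h4 =>
    ⟨(h r lam a b h1 h2 h3 h4).1, fun h5 _ => (h r lam a b h1 h2 h3 h4).2 h5⟩⟩

end OldSmoothThreefold
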