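import Pool.Agent.MLD.Fin3

namespace OldSplitIdeals

open MLD MvPolynomial

/-- Uniform ideal-adic semicontinuity of minimal log discrepancies at the origin of affine
`n`-space over an algebraically closed field `k` of characteristic zero, for the `ℝ`-ideals
`∏ a_j^(lam j)` (`0 ≤ j ≤ r`) with exponents in a finite set `I`, `lam 0 ≤ 1`, which split: in
suitable formal coordinates, partitioned into blocks of at most two coordinates (both depend on
the `ℝ`-ideal), `a_0` is generated by a sum of power series in the single blocks and every other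
`a_j` by products of power series in the single blocks. -/
theorem result.{u} (k : Type u) [Field k] [IsAlgClosed k] [CharZero k] (n : ℕ) (hn : 0 < n)
    (I : Set ℝ) (hI : I.Finite) (hI0 : ∀ t ∈ I, 0 ≤ t) :
    ∃ s : ℕ, 1 ≤ s ∧ ∀ (r : ℕ) (lam : Fin (r + 1) → ℝ)
      (a b : Fin (r + 1) → Ideal (MvPolynomial (Fin n) k)),
      (∀ j, lam j ∈ I) → lam 0 ≤ 1 → (∀ j, a j ≠ ⊥) → (∀ j, b j ≠ ⊥) → IsSplit a → IsSplit b →
      (∀ j, a j ⊔ mm k (Fin n) ^ s = b j ⊔ mm k (Fin n) ^ s) →
      (0 ≤ mld lam a ↔ 0 ≤ mld lam b) ∧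
        (0 ≤ mld lam a → 0 ≤ mld lam b → mld lam a = mld lam b) :=
  q1_split n hn (bdd_isSplit n hn) I hI hI0

end OldSplitIdeals
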